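import Mathlib

/-!
# Matroids in which every 4-element set lies in a circuit or a cocircuit

First constraints, the classification in rank (and corank) at most two, and the binary case: no circuits and no
cocircuits with three elements.
-/

open Set

namespace Pool.Agent.Results.MP_16b4d3_co.SmallRankAndBinary

/-- property `(⋆)`: each 4-element set of elements is contained in a circuit or in a cocircuit -/
def Star {α : Type} (M : Matroid α) : Prop :=
  ∀ X ⊆ M.E, X.ncard = 4 → ∃ C, (M.IsCircuit C ∨ M.IsCocircuit C) ∧ X ⊆ C

/-- each circuit meets each cocircuit in an even number of elements: for finite matroids, this is binary -/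
def EvenMeets {α : Type} (M : Matroid α) : Prop :=
  ∀ C K, M.IsCircuit C → M.IsCocircuit K → Even (C ∩ K).ncard

/-- there are five elements that are pairwise independent -/
def FivePoints {α : Type} (M : Matroid α) : Prop :=
  ∃ S ⊆ M.E, S.ncard = 5 ∧ ∀ a ∈ S, ∀ b ∈ S, a ≠ b → M.Indep {a, b}

variable {α : Type}

theorem star_dual (M : Matroid α) : Star M ↔ Star M✶ := by
  constructor
  · intro h X hX hX4
    obtain ⟨C, hC, hXC⟩ := h X hX hX4
    refine ⟨C, ?_, hXC⟩
    rcases hC with hC | hC
    · exact Or.inr (by simpa using hC)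
    · exact Or.inl hC
  · intro h X hX hX4
    obtain ⟨C, hC, hXC⟩ := h X hX hX4
    refine ⟨C, ?_, hXC⟩
    rcases hC with hC | hC
    · exact Or.inr hC
    · exact Or.inl (by simpa using hC)

theorem ext4 (M : Matroid α) [M.Finite] (hE : 4 ≤ M.E.ncard) {Y : Set α} (hY : Y ⊆ M.E)
    (hY4 : Y.ncard ≤ 4) : ∃ X, Y ⊆ X ∧ X ⊆ M.E ∧ X.ncard = 4 := by
  obtain ⟨X, h1, h2, h3⟩ := Set.exists_subsuperset_card_eq hY hY4 hE
  exact ⟨X, h1, h2, h3⟩

/-- a circuit with fewer than four elements is contained in a cocircuit together with further elements -/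
theorem small_circuit (M : Matroid α) [M.Finite] (hM : Star M) {C X : Set α}
    (hC : M.IsCircuit C) (hC4 : C.ncard < 4) (hCX : C ⊆ X) (hX : X ⊆ M.E) (hX4 : X.ncard = 4) :
    ∃ K, M.IsCocircuit K ∧ X ⊆ K := by
  obtain ⟨K, hK, hXK⟩ := hM X hX hX4
  rcases hK with hK | hK
  · exfalso
    have h1 : C = K := hC.eq_of_subset_isCircuit hK (hCX.trans hXK)
    have h2 : X.ncard ≤ K.ncard := Set.ncard_le_ncard hXK (M.ground_finite.subset hK.subset_ground)
    rw [← h1] at h2
    omega
  · exact ⟨K, hK, hXK⟩

theorem no_loop (M : Matroid α) [M.Finite] (hM : Star M) (hE : 4 ≤ M.E.ncard) (e : α) :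
    ¬ M.IsCircuit {e} := by
  intro hC
  obtain ⟨X, h1, h2, h3⟩ := ext4 M hE hC.subset_ground (by simp)
  obtain ⟨K, hK, hXK⟩ := small_circuit M hM hC (by simp) h1 h2 h3
  refine hC.inter_isCocircuit_ne_singleton hK (e := e) ?_
  exact inter_eq_left.mpr (h1.trans hXK)

theorem simple_or_cosimple (M : Matroid α) [M.Finite] (hM : Star M) (hE : 4 ≤ M.E.ncard)
    {C K : Set α} (hC : M.IsCircuit C) (hK : M.IsCocircuit K) (hC2 : C.ncard = 2) (hK2 : K.ncard = 2) :
    False := by
  have hCf : C.Finite := M.ground_finite.subset hC.subset_ground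
  have hKf : K.Finite := M.ground_finite.subset hK.subset_ground
  have hU : (C ∪ K).ncard ≤ 4 := (Set.ncard_union_le C K).trans (by omega)
  obtain ⟨X, h1, h2, h3⟩ := ext4 M hE (union_subset hC.subset_ground hK.subset_ground) hU
  obtain ⟨K', hK', hXK'⟩ := small_circuit M hM hC (by omega) (subset_union_left.trans h1) h2 h3
  have h4 : K = K' := hK.isCircuit.eq_of_subset_isCircuit hK'.isCircuit ((subset_union_right.trans h1).trans hXK')
  have h5 : X.ncard ≤ K'.ncard := Set.ncard_le_ncard hXK' (M.ground_finite.subset hK'.subset_ground)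
  rw [← h4] at h5
  omega

theorem no_triangle (M : Matroid α) [M.Finite] (hM : Star M) (hE : 4 ≤ M.E.ncard) (hb : EvenMeets M)
    {C : Set α} (hC : M.IsCircuit C) : C.ncard ≠ 3 := by
  intro hC3
  obtain ⟨X, h1, h2, h3⟩ := ext4 M hE hC.subset_ground (by omega)
  obtain ⟨K, hK, hXK⟩ := small_circuit M hM hC (by omega) h1 h2 h3
  have := hb C K hC hK
  rw [inter_eq_left.mpr (h1.trans hXK), hC3] at this
  exact absurd this (by decide)

theorem evenMeets_dual (M : Matroid α) (hb : EvenMeets M) : EvenMeets M✶ := by
  intro C K hC hK
  rw [inter_comm]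
  exact hb K C (by simpa using hK) hC

/-- rank two -/
theorem rank_two (M : Matroid α) [M.Finite] (hr : M.eRank = 2) (hE : 4 ≤ M.E.ncard) :
    Star M ↔ (∀ e, ¬ M.IsCircuit {e}) ∧ FivePoints M := by
  have hB2 : ∀ B, M.IsBase B → B.ncard = 2 := by
    intro B hB
    have := hB.encard_eq_eRank
    rw [hr] at this
    rw [Set.ncard_def, this]; rfl
  have hI2 : ∀ I, M.Indep I → I.ncard ≤ 2 := by
    intro I hI
    obtain ⟨B, hB, hIB⟩ := hI.exists_isBase_superset
    rw [← hB2 B hB]
    exact Set.ncard_le_ncard hIB (M.ground_finite.subset hB.subset_ground)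
  have hIB : ∀ I, M.Indep I → I.ncard = 2 → M.IsBase I := by
    intro I hI hI2'
    obtain ⟨B, hB, hIB⟩ := hI.exists_isBase_superset
    have hBf : B.Finite := M.ground_finite.subset hB.subset_ground
    have : I = B := Set.eq_of_subset_of_ncard_le hIB (by rw [hB2 B hB, hI2']) hBf
    rwa [this]
  constructor
  · intro hM
    refine ⟨no_loop M hM hE, ?_⟩
    -- a largest set of pairwise independent elements
    by_contra hfive
    let P : Set α → Prop := fun S => S ⊆ M.E ∧ ∀ a ∈ S, ∀ b ∈ S, a ≠ b → M.Indep {a, b}
    have hsmall : ∀ S, P S → S.ncard ≤ 4 := by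
      intro S hS
      by_contra hS5
      push Not at hS5
      obtain ⟨T, hT1, hT2⟩ := Set.exists_subset_card_eq (s := S) (n := 5) (by omega)
      exact hfive ⟨T, hT1.trans hS.1, hT2, fun a ha b hb hab => hS.2 a (hT1 ha) b (hT1 hb) hab⟩
    obtain ⟨S, hS, hmax⟩ : ∃ S, P S ∧ ∀ T, P T → T.ncard ≤ S.ncard := by
      have hne : ∃ n, ∃ S, P S ∧ S.ncard = n := ⟨0, ∅, ⟨empty_subset _, by simp⟩, by simp⟩
      have hbd : ∀ n, (∃ S, P S ∧ S.ncard = n) → n ≤ 4 := by
        rintro n ⟨S, hS, rfl⟩; exact hsmall S hS
      classical
      obtain ⟨S, hS, hSn⟩ := Nat.findGreatest_spec (P := fun n => ∃ S, P S ∧ S.ncard = n) (n := 4)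
        (m := 0) (by omega) ⟨∅, ⟨empty_subset _, by simp⟩, by simp⟩
      refine ⟨S, hS, ?_⟩
      intro T hT
      rw [hSn]
      exact Nat.le_findGreatest (hsmall T hT) ⟨T, hT, rfl⟩
    obtain ⟨X, h1, h2, h3⟩ := ext4 M hE hS.1 (hsmall S hS)
    obtain ⟨K, hK, hXK⟩ := hM X h2 h3
    have hSf : S.Finite := M.ground_finite.subset hS.1
    -- every element outside `S` is parallel to an element of `S`
    have hpar : ∀ e ∈ M.E, ∃ s ∈ S, ¬ M.Indep {e, s} ∨ e = s := by
      intro e he
      by_contra hcon
      push Not at hcon
      have heS : e ∉ S := fun h => (hcon e h).2 rfl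
      have : P (insert e S) := by
        refine ⟨insert_subset he hS.1, ?_⟩
        intro a ha b hb hab
        rcases ha with rfl | ha <;> rcases hb with rfl | hb
        · exact absurd rfl hab
        · exact (hcon b hb).1
        · rw [pair_comm]; exact (hcon a ha).1
        · exact hS.2 a ha b hb hab
      have h := hmax _ this
      rw [Set.ncard_insert_of_notMem heS hSf] at h
      omega
    rcases hK with hK | hK
    · -- a circuit has at most three elements
      obtain ⟨e, he⟩ := hK.nonempty
      have h4 := hI2 _ (hK.sdiff_singleton_indep he)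
      have hKf : K.Finite := M.ground_finite.subset hK.subset_ground
      have h5 := Set.ncard_le_ncard hXK hKf
      have h6 := Set.ncard_sdiff_singleton_add_one he hKf
      omega
    · have hmin := Matroid.isCocircuit_iff_minimal.mp hK
      have hSK : S ⊆ K := h1.trans hXK
      -- each element of `K` is the only common element with a base
      have hone : ∀ s ∈ K, ∃ B, M.IsBase B ∧ K ∩ B = {s} := by
        intro s hs
        by_contra hcon
        push Not at hcon
        have hall : ∀ B, M.IsBase B → ((K \ {s}) ∩ B).Nonempty := by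
          intro B hB
          by_contra hne
          rw [Set.not_nonempty_iff_eq_empty] at hne
          apply hcon B hB
          obtain ⟨z, hzK, hzB⟩ := hmin.prop B hB
          have hz : z = s := by
            by_contra hzs
            have : z ∈ (K \ {s}) ∩ B := ⟨⟨hzK, hzs⟩, hzB⟩
            rw [hne] at this
            exact this
          subst hz
          ext w
          constructor
          · rintro ⟨hwK, hwB⟩
            by_contra hwz
            have : w ∈ (K \ {z}) ∩ B := ⟨⟨hwK, hwz⟩, hwB⟩
            rw [hne] at this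
            exact this
          · rintro rfl
            exact ⟨hzK, hzB⟩
        have := hmin.le_of_le (y := K \ {s}) hall sdiff_subset hs
        exact this.2 rfl
      have hother : ∀ s ∈ K, ∃ t, t ∉ K ∧ M.Indep {s, t} ∧ t ≠ s := by
        intro s hs
        obtain ⟨B, hB, hKB⟩ := hone s hs
        have hsB : s ∈ B := by
          have : s ∈ K ∩ B := by rw [hKB]; rfl
          exact this.2
        obtain ⟨t, htB, hts⟩ : ∃ t ∈ B, t ≠ s := by
          by_contra hcon
          push Not at hcon
          have : B ⊆ {s} := fun x hx => hcon x hx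
          have h := Set.ncard_le_ncard this (Set.finite_singleton s)
          rw [hB2 B hB, Set.ncard_singleton] at h
          omega
        refine ⟨t, ?_, hB.indep.subset (by
          intro x hx
          rcases hx with rfl | hx
          · exact hsB
          · rw [mem_singleton_iff] at hx; rw [hx]; exact htB), hts⟩
        intro htK
        have : t ∈ K ∩ B := ⟨htK, htB⟩
        rw [hKB] at this
        exact hts this
      obtain ⟨k, hk⟩ := hK.nonempty
      obtain ⟨t, htK, hkt, -⟩ := hother k hk
      have htE : t ∈ M.E := hkt.subset_ground (by simp)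
      obtain ⟨s, hsS, hst⟩ := hpar t htE
      have hsK : s ∈ K := hSK hsS
      have hst' : ¬ M.Indep {t, s} := by
        rcases hst with h | h
        · exact h
        · exact absurd (h ▸ hsK) htK
      have hts : t ≠ s := fun h => htK (h ▸ hsK)
      obtain ⟨u, huK, hsu, hus⟩ := hother s hsK
      have hnl : ∀ e ∈ M.E, M.Indep {e} := by
        intro e he
        by_contra hcon
        exact no_loop M hM hE e (by
          rw [Matroid.isCircuit_iff_dep_forall_sdiff_singleton_indep]
          refine ⟨⟨hcon, by simpa using he⟩, ?_⟩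
          intro x hx
          rw [mem_singleton_iff] at hx
          subst hx
          simp)
      -- `t` and `u` are not in `K`, so they are not a base
      have htu : ¬ M.Indep {t, u} ∨ t = u := by
        by_contra hcon
        push Not at hcon
        have hb : M.IsBase {t, u} := hIB _ hcon.1 (Set.ncard_pair hcon.2)
        obtain ⟨z, hzK, hz⟩ := hmin.prop _ hb
        rcases hz with rfl | hz
        · exact htK hzK
        · rw [mem_singleton_iff] at hz; subst hz; exact huK hzK
      rcases htu with htu | rfl
      · -- `s` and `u` are both parallel to `t`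
        have hsE : s ∈ M.E := hK.subset_ground hsK
        have huE : u ∈ M.E := hsu.subset_ground (by simp)
        have c1 : s ∈ M.closure {t} := by
          by_contra hcon
          apply hst'
          rw [pair_comm]
          exact ((hnl t htE).notMem_closure_iff_of_notMem (by simpa using hts.symm) hsE).mp hcon
        have c2 : u ∈ M.closure {t} := by
          by_contra hcon
          by_cases hut : u = t
          · subst hut
            exact hcon (M.mem_closure_of_mem rfl (by simpa using huE))
          · apply htu
            rw [pair_comm]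
            exact ((hnl t htE).notMem_closure_iff_of_notMem (by simpa using hut) huE).mp hcon
        -- then the independent set `{s, u}` lies in the closure of one element
        have h7 : ({s, u} : Set α) ⊆ M.closure {t} := by
          intro x hx
          rcases hx with rfl | hx
          · exact c1
          · rw [mem_singleton_iff] at hx; subst hx; exact c2
        have h8 : M.eRk {s, u} ≤ M.eRk {t} := by
          rw [← M.eRk_closure_eq {t}]
          exact M.eRk_mono h7
        rw [hsu.eRk_eq_encard, (hnl t htE).eRk_eq_encard, Set.encard_pair hus.symm, Set.encard_singleton] at h8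
        exact absurd h8 (by norm_num)
      · exact hst' (by rw [pair_comm]; exact hsu)
  · rintro ⟨hl, S, hSE, hS5, hSi⟩ X hX hX4
    have hXf : X.Finite := M.ground_finite.subset hX
    have hSf : S.Finite := M.ground_finite.subset hSE
    -- some `p` in `S` is parallel to no element of `X`
    obtain ⟨p, hpS, hp⟩ : ∃ p ∈ S, ∀ x ∈ X, x ∉ M.closure {p} := by
      by_contra hcon
      push Not at hcon
      choose! f hf1 hf2 using hcon
      have hinj : Set.InjOn f S := by
        intro a ha b hb hab
        by_contra hne
        have h1 := hf2 a ha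
        have h2 := hf2 b hb
        rw [← hab] at h2
        have hnlx : M.Indep {f a} := by
          by_contra hcon
          exact hl (f a) (by
            rw [Matroid.isCircuit_iff_dep_forall_sdiff_singleton_indep]
            refine ⟨⟨hcon, by simpa using hX (hf1 a ha)⟩, ?_⟩
            intro x hx
            rw [mem_singleton_iff] at hx
            subst hx
            simp)
        have hna : M.Indep {a} := (hSi a ha b hb hne).subset (by simp)
        have hnb : M.Indep {b} := (hSi a ha b hb hne).subset (by simp)
        have e1 : a ∈ M.closure {f a} := by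
          by_cases h : a = f a
          · exact M.mem_closure_of_mem (by simp [← h]) (by simpa using hX (hf1 a ha))
          · by_contra hc
            have := ((hnlx).notMem_closure_iff_of_notMem (by simpa using h) (hSE ha)).mp hc
            rw [pair_comm] at this
            exact ((hna.notMem_closure_iff_of_notMem (by simpa using (Ne.symm h)) (hX (hf1 a ha))).mpr this) h1
        have e2 : b ∈ M.closure {f a} := by
          by_cases h : b = f a
          · exact M.mem_closure_of_mem (by simp [← h]) (by simpa using hX (hf1 a ha))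
          · by_contra hc
            have := ((hnlx).notMem_closure_iff_of_notMem (by simpa using h) (hSE hb)).mp hc
            rw [pair_comm] at this
            exact ((hnb.notMem_closure_iff_of_notMem (by simpa using (Ne.symm h)) (hX (hf1 a ha))).mpr this) h2
        have h7 : ({a, b} : Set α) ⊆ M.closure {f a} := by
          intro x hx
          rcases hx with rfl | hx
          · exact e1
          · rw [mem_singleton_iff] at hx; subst hx; exact e2
        have h8 : M.eRk {a, b} ≤ M.eRk {f a} := by
          rw [← M.eRk_closure_eq {f a}]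
          exact M.eRk_mono h7
        rw [(hSi a ha b hb hne).eRk_eq_encard, hnlx.eRk_eq_encard, Set.encard_pair hne, Set.encard_singleton] at h8
        exact absurd h8 (by norm_num)
      have h9 := Set.ncard_le_ncard_of_injOn f hf1 hinj hXf
      omega
    -- a base through `p`
    have hpi : M.Indep {p} := by
      by_contra hcon
      exact hl p (by
        rw [Matroid.isCircuit_iff_dep_forall_sdiff_singleton_indep]
        refine ⟨⟨hcon, by simpa using hSE hpS⟩, ?_⟩
        intro x hx
        rw [mem_singleton_iff] at hx
        subst hx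
        simp)
    obtain ⟨B, hB, hpB⟩ := hpi.exists_isBase_superset
    have hpB' : p ∈ B := hpB rfl
    obtain ⟨q, hqB, hqp⟩ : ∃ q ∈ B, q ≠ p := by
      by_contra hcon
      push Not at hcon
      have : B ⊆ {p} := fun x hx => hcon x hx
      have h := Set.ncard_le_ncard this (Set.finite_singleton p)
      rw [hB2 B hB, Set.ncard_singleton] at h
      omega
    have hBpq : B \ {q} = {p} := by
      have hBf : B.Finite := M.ground_finite.subset hB.subset_ground
      symm
      apply Set.eq_of_subset_of_ncard_le
      · intro x hx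
        rw [mem_singleton_iff] at hx
        subst hx
        exact ⟨hpB', fun h => hqp h.symm⟩
      · have := Set.ncard_sdiff_singleton_add_one hqB hBf
        rw [hB2 B hB] at this
        rw [Set.ncard_singleton]
        omega
      · exact hBf.subset sdiff_subset
    have hco := hB.compl_closure_sdiff_singleton_isCocircuit hqB
    rw [hBpq] at hco
    exact ⟨_, Or.inr hco, fun x hx => ⟨hX hx, hp x hx⟩⟩

/-- rank one -/
theorem rank_one (M : Matroid α) [M.Finite] (hr : M.eRank = 1) (hE : 4 ≤ M.E.ncard) :
    Star M ↔ ∀ e, ¬ M.IsCircuit {e} := by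
  refine ⟨fun hM => no_loop M hM hE, ?_⟩
  intro hl X hX _
  have hB1 : ∀ B, M.IsBase B → B.ncard = 1 := by
    intro B hB
    have := hB.encard_eq_eRank
    rw [hr] at this
    rw [Set.ncard_def, this]; rfl
  refine ⟨M.E, Or.inr ?_, hX⟩
  rw [Matroid.isCocircuit_iff_minimal]
  refine ⟨?_, ?_⟩
  · intro B hB
    have hne : B.Nonempty := by
      rw [Set.nonempty_iff_ne_empty]
      rintro rfl
      have := hB1 _ hB
      simp at this
    obtain ⟨b, hb⟩ := hne
    exact ⟨b, hB.subset_ground hb, hb⟩
  · intro K hK _ e he
    have hei : M.Indep {e} := by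
      by_contra hcon
      exact hl e (by
        rw [Matroid.isCircuit_iff_dep_forall_sdiff_singleton_indep]
        refine ⟨⟨hcon, by simpa using he⟩, ?_⟩
        intro x hx
        rw [mem_singleton_iff] at hx
        subst hx
        simp)
    obtain ⟨B, hB, heB⟩ := hei.exists_isBase_superset
    have hBf : B.Finite := M.ground_finite.subset hB.subset_ground
    have hBe : ({e} : Set α) = B := Set.eq_of_subset_of_ncard_le heB (by rw [hB1 B hB]; simp) hBf
    obtain ⟨z, hzK, hzB⟩ := hK B hB
    rw [← hBe, mem_singleton_iff] at hzB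
    rwa [← hzB]

/-- rank zero -/
theorem rank_zero (M : Matroid α) [M.Finite] (hr : M.eRank = 0) (hE : 4 ≤ M.E.ncard) : ¬ Star M := by
  intro hM
  have hne : M.E.Nonempty := by
    rw [Set.nonempty_iff_ne_empty]
    intro h
    rw [h] at hE
    simp at hE
  obtain ⟨e, he⟩ := hne
  refine no_loop M hM hE e ?_
  rw [Matroid.isCircuit_iff_dep_forall_sdiff_singleton_indep]
  refine ⟨⟨?_, by simpa using he⟩, ?_⟩
  · intro hi
    obtain ⟨B, hB, heB⟩ := hi.exists_isBase_superset
    have h1 := hB.encard_eq_eRank
    rw [hr, Set.encard_eq_zero] at h1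
    rw [h1] at heB
    exact heB rfl
  · intro x hx
    rw [mem_singleton_iff] at hx
    subst hx
    simp

theorem result :
    -- the property is self-dual
    (∀ (α : Type) (M : Matroid α), Star M ↔ Star M✶) ∧
    -- constraints on small circuits and cocircuits
    (∀ (α : Type) (M : Matroid α) [M.Finite], Star M → 4 ≤ M.E.ncard →
      (∀ e, ¬ M.IsCircuit {e} ∧ ¬ M.IsCocircuit {e}) ∧
      ((∀ C, M.IsCircuit C → C.ncard ≠ 2) ∨ ∀ K, M.IsCocircuit K → K.ncard ≠ 2) ∧
      (EvenMeets M → ∀ C, M.IsCircuit C ∨ M.IsCocircuit C → C.ncard ≠ 3)) ∧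
    -- rank at most two
    (∀ (α : Type) (M : Matroid α) [M.Finite], 4 ≤ M.E.ncard →
      (M.eRank = 0 → ¬ Star M) ∧
      (M.eRank = 1 → (Star M ↔ ∀ e, ¬ M.IsCircuit {e})) ∧
      (M.eRank = 2 → (Star M ↔ (∀ e, ¬ M.IsCircuit {e}) ∧ FivePoints M))) ∧
    -- corank at most two
    (∀ (α : Type) (M : Matroid α) [M.Finite], 4 ≤ M.E.ncard →
      (M✶.eRank = 0 → ¬ Star M) ∧
      (M✶.eRank = 1 → (Star M ↔ ∀ e, ¬ M.IsCocircuit {e})) ∧
      (M✶.eRank = 2 → (Star M ↔ (∀ e, ¬ M.IsCocircuit {e}) ∧ FivePoints M✶))) := by
  refine ⟨fun α M => star_dual M, ?_, ?_, ?_⟩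
  · intro α M _ hM hE
    have hM' : Star M✶ := (star_dual M).mp hM
    have hE' : 4 ≤ M✶.E.ncard := by simpa using hE
    refine ⟨fun e => ⟨no_loop M hM hE e, fun h => no_loop M✶ hM' hE' e h⟩, ?_, ?_⟩
    · by_contra hcon
      push Not at hcon
      obtain ⟨⟨C, hC, hC2⟩, K, hK, hK2⟩ := hcon
      exact simple_or_cosimple M hM hE hC hK hC2 hK2
    · intro hb C hC
      rcases hC with hC | hC
      · exact no_triangle M hM hE hb hC
      · exact no_triangle M✶ hM' hE' (evenMeets_dual M hb) hC
  · intro α M _ hE
    exact ⟨fun h => rank_zero M h hE, fun h => rank_one M h hE, fun h => rank_two M h hE⟩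
  · intro α M _ hE
    have hE' : 4 ≤ M✶.E.ncard := by simpa using hE
    refine ⟨fun h hM => rank_zero M✶ h hE' ((star_dual M).mp hM), fun h => ?_, fun h => ?_⟩
    · rw [star_dual M]; exact rank_one M✶ h hE'
    · rw [star_dual M]; exact rank_two M✶ h hE'

end Pool.Agent.Results.MP_16b4d3_co.SmallRankAndBinary
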